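import Pool.Agent.Helper19.HM.Goals

/-!
# HM-CHR (MP_bb32d1_al, MP_2a8fe7_al): the character
-/

set_option autoImplicit false

namespace Pool.Agent.Helper13.HM

noncomputable section

open Pool.Agent.Helper19.SQ Pool.Agent.Helper19.HM MvPolynomial Module

theorem fx_one (n m : ℕ) : fx m (1 : Equiv.Perm (Fin n)) = m ^ n := by
  have h : ∀ f : Fin n → Fin m, f ∘ ((1 : Equiv.Perm (Fin n)) : Fin n → Fin n) = f := by
    intro f
    rw [Equiv.Perm.coe_one, Function.comp_id]
  unfold fx
  rw [Nat.card_congr (Equiv.subtypeUnivEquiv h), Nat.card_eq_fintype_card, Fintype.card_fun,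
    Fintype.card_fin, Fintype.card_fin]

theorem c_chr (hTRC : S_TRC) (hFXC : S_FXC) : Pool.Agent.Helper19.HM.S_CHR := by
  intro n V _ _ _ H hn
  have key : ∀ (N : ℕ) (g : Equiv.Perm (Fin n)), g.support.card ≤ N →
      ((n : ℂ) + 1) ^ n * LinearMap.trace ℂ V (H.s g)
        = (finrank ℂ V : ℂ) * (fx (n + 1) g : ℂ) := by
    intro N
    induction N with
    | zero =>
      intro g hg
      have h1 : g = 1 := Equiv.Perm.support_eq_empty_iff.1 (Finset.card_eq_zero.1 (Nat.le_zero.1 hg))
      subst h1
      rw [H.s_one, LinearMap.trace_one, fx_one, Nat.cast_pow, Nat.cast_add, Nat.cast_one, mul_comm]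
    | succ N ih =>
      intro g hg
      by_cases h1 : g = 1
      · exact ih g (by rw [h1, Equiv.Perm.support_one, Finset.card_empty]; exact Nat.zero_le _)
      · obtain ⟨i, hi⟩ : ∃ i, g i ≠ i := by
          by_contra hcon
          push Not at hcon
          exact h1 (Equiv.ext fun i => by rw [hcon i, Equiv.Perm.coe_one, id])
        have hji : i ≠ g⁻¹ i := by
          intro h2
          apply hi
          rw [Equiv.Perm.eq_inv_iff_eq] at h2
          exact h2
        have happ : g (g⁻¹ i) = i := by
          rw [← Equiv.Perm.mul_apply, mul_inv_cancel, Equiv.Perm.coe_one, id]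
        have hg' : g * Equiv.swap i (g⁻¹ i) = Equiv.swap i (g i) * g := by
          rw [Equiv.mul_swap_eq_swap_mul, happ, Equiv.swap_comm]
        have hfix : (g * Equiv.swap i (g⁻¹ i)) i = i := by
          rw [Equiv.Perm.mul_apply, Equiv.swap_apply_left, happ]
        have hback : g * Equiv.swap i (g⁻¹ i) * Equiv.swap i (g⁻¹ i) = g := by
          rw [mul_assoc, Equiv.swap_mul_self, mul_one]
        have hlt : (g * Equiv.swap i (g⁻¹ i)).support.card < g.support.card := by
          rw [hg']
          exact Equiv.Perm.card_support_swap_mul hi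
        have h3 := ih (g * Equiv.swap i (g⁻¹ i)) (by omega)
        have h4 := hTRC n V H hn (g * Equiv.swap i (g⁻¹ i)) i (g⁻¹ i) hfix hji
        have h5 := hFXC n (n + 1) (g * Equiv.swap i (g⁻¹ i)) i (g⁻¹ i) hfix hji
        rw [hback] at h4 h5
        rw [← h4, h5, Nat.cast_mul, Nat.cast_add, Nat.cast_one] at h3
        have h6 : (n : ℂ) + 1 ≠ 0 := Nat.cast_add_one_ne_zero n
        refine mul_left_cancel₀ h6 ?_
        linear_combination h3
  intro g
  exact key _ g le_rfl

end

end Pool.Agent.Helper13.HM
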