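import Pool.Agent.Helper19.HM.Goals

/-!
# HM-SUR (MP_bb32d1_al, MP_2a8fe7_al): the surjection from the diagonal coinvariants
-/

set_option autoImplicit false

namespace Pool.Agent.Helper13.HM

noncomputable section

open Pool.Agent.Helper19.SQ Pool.Agent.Helper19.HM MvPolynomial Module

theorem hc_rn {n : ℕ} (g : Equiv.Perm (Fin n)) (k : ℕ) (f : Pn n) :
    homogeneousComponent k (rn g f) = rn g (homogeneousComponent k f) := by
  have key : (homogeneousComponent k).comp (rn g).toLinearMap
      = (rn g).toLinearMap.comp (homogeneousComponent k : Pn n →ₗ[ℂ] Pn n) := by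
    refine (basisMonomials (Fin n ⊕ Fin n) ℂ).ext fun s => ?_
    rw [coe_basisMonomials, LinearMap.comp_apply, LinearMap.comp_apply, AlgHom.toLinearMap_apply,
      AlgHom.toLinearMap_apply]
    have h1 : (monomial s (1 : ℂ)) ∈ homogeneousSubmodule (Fin n ⊕ Fin n) ℂ s.degree :=
      isHomogeneous_monomial (1 : ℂ) rfl
    have h2 : rn g (monomial s (1 : ℂ)) ∈ homogeneousSubmodule (Fin n ⊕ Fin n) ℂ s.degree := by
      have h3 : (monomial s (1 : ℂ)).IsHomogeneous s.degree := isHomogeneous_monomial (1 : ℂ) rfl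
      exact h3.rename_isHomogeneous
    rw [homogeneousComponent_of_mem h1, homogeneousComponent_of_mem h2]
    split_ifs
    · rfl
    · rw [map_zero]
  exact LinearMap.congr_fun key f

theorem prodX_hom {n : ℕ} (w : List (Fin n ⊕ Fin n)) :
    ((w.map X).prod : Pn n).IsHomogeneous w.length := by
  induction w with
  | nil =>
    rw [List.map_nil, List.prod_nil, List.length_nil]
    exact isHomogeneous_one _ _
  | cons a w ih =>
    rw [List.map_cons, List.prod_cons, List.length_cons, add_comm]
    exact (isHomogeneous_X ℂ a).mul ih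

theorem c_sur (hPRM : S_PRM) (hPSI : S_PSI) (hKIL : S_KIL) (hPRJ : S_PRJ) :
    Pool.Agent.Helper19.HM.S_SUR := by
  intro n V _ _ H δ hn hsg hK
  obtain ⟨K, hK⟩ := hK
  have hδ : δ ∈ H.sg := by
    rw [hsg]
    exact Submodule.mem_span_singleton_self δ
  obtain ⟨_, _, _, prm4, _⟩ := hPRM n V H δ hn hδ
  obtain ⟨psi1, _, psi3⟩ := hPSI n V H δ hn hδ
  have kil := hKIL n V H δ hn hsg
  have prj : ∀ k, ∃ p : Module.End ℂ V, (∀ v, p v ∈ H.G δ k) ∧ (∀ v ∈ H.G δ k, p v = v) ∧
      ∀ g, H.s g * p = p * H.s g := fun k => hPRJ n V H (H.G δ k) fun g v hv => prm4 g k v hv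
  choose p hp1 hp2 hp3 using prj
  -- the linear map
  let Θ : Pn n →ₗ[ℂ] V := ∑ k ∈ Finset.range K,
    ((1 : Module.End ℂ V) - p k).comp ((H.psi δ).comp (homogeneousComponent k))
  have hΘ : ∀ f : Pn n, Θ f = ∑ k ∈ Finset.range K,
      (H.psi δ (homogeneousComponent k f) - p k (H.psi δ (homogeneousComponent k f))) := by
    intro f
    change (∑ k ∈ Finset.range K,
      ((1 : Module.End ℂ V) - p k).comp ((H.psi δ).comp (homogeneousComponent k))) f = _
    rw [LinearMap.sum_apply]
    refine Finset.sum_congr rfl fun k _ => ?_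
    rw [LinearMap.comp_apply, LinearMap.comp_apply, LinearMap.sub_apply, Module.End.one_apply]
  have hΘ0 : ∀ f ∈ dIdeal n, Θ f = 0 := by
    intro f hf
    rw [hΘ]
    refine Finset.sum_eq_zero fun k _ => ?_
    rw [hp2 k _ (kil f hf k), sub_self]
  have hsgn : ∀ g : Equiv.Perm (Fin n),
      ((Equiv.Perm.sign g : ℤ) : ℂ) * ((Equiv.Perm.sign g : ℤ) : ℂ) = 1 := by
    intro g
    rw [← Int.cast_mul, ← Units.val_mul, Int.units_mul_self, Units.val_one, Int.cast_one]
  have hΘs : ∀ (g : Equiv.Perm (Fin n)) (f : Pn n),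
      Θ (rn g f) = ((Equiv.Perm.sign g : ℤ) : ℂ) • H.s g (Θ f) := by
    intro g f
    rw [hΘ, hΘ, map_sum, Finset.smul_sum]
    refine Finset.sum_congr rfl fun k _ => ?_
    rw [hc_rn]
    have h1 := psi3 g k (homogeneousComponent k f) (homogeneousComponent_isHomogeneous k f)
    have h2 := hp2 k _ h1
    have h3 : H.s g (p k (H.psi δ (homogeneousComponent k f)))
        = p k (H.s g (H.psi δ (homogeneousComponent k f))) := by
      rw [← Module.End.mul_apply, hp3 k g, Module.End.mul_apply]
    rw [map_sub, map_smul] at h2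
    rw [map_sub, h3]
    have h4 : H.s g (H.psi δ (homogeneousComponent k f))
        - p k (H.s g (H.psi δ (homogeneousComponent k f)))
        = ((Equiv.Perm.sign g : ℤ) : ℂ) • (H.psi δ (rn g (homogeneousComponent k f))
          - p k (H.psi δ (rn g (homogeneousComponent k f)))) := by
      rw [smul_sub]
      have h5 := sub_eq_zero.2 h2
      rw [← sub_eq_zero]
      rw [← neg_eq_zero, ← h5]
      abel
    rw [h4, smul_smul, hsgn, one_smul]
  have hsur : ∀ m, m ≤ K → H.G δ m ≤ LinearMap.range Θ := by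
    intro m
    induction m with
    | zero =>
      intro _
      refine Submodule.span_le.2 ?_
      rintro v ⟨w, hw, _⟩
      exact absurd hw (Nat.not_lt_zero _)
    | succ m ih =>
      intro hm
      have ih' := ih (Nat.le_of_succ_le hm)
      refine Submodule.span_le.2 ?_
      rintro v ⟨w, hw, rfl⟩
      rcases Nat.lt_succ_iff_lt_or_eq.1 hw with hlt | heq
      · exact ih' (Submodule.subset_span ⟨w, hlt, rfl⟩)
      · have hf := prodX_hom w
        have hmem : ((w.map X).prod : Pn n) ∈ homogeneousSubmodule (Fin n ⊕ Fin n) ℂ w.length := hf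
        have h1 : Θ ((w.map X).prod) = H.psi δ ((w.map X).prod)
            - p m (H.psi δ ((w.map X).prod)) := by
          rw [hΘ, Finset.sum_eq_single m]
          · rw [homogeneousComponent_of_mem hmem, if_pos heq.symm]
          · intro k _ hk
            rw [homogeneousComponent_of_mem hmem, if_neg (by rw [heq]; exact hk), map_zero,
              map_zero, sub_zero]
          · intro hmK
            exact absurd (Finset.mem_range.2 hm) hmK
        have h2 := psi1 w
        rw [heq] at h2
        have h3 : H.op w δ = Θ ((w.map X).prod) + (p m (H.psi δ ((w.map X).prod))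
            - (H.psi δ ((w.map X).prod) - H.op w δ)) := by
          rw [h1]
          abel
        rw [SetLike.mem_coe, h3]
        exact Submodule.add_mem _ ⟨_, rfl⟩ (ih' (Submodule.sub_mem _ (hp1 m _) h2))
  let Φ : DR n →ₗ[ℂ] V := Submodule.liftQ ((dIdeal n).restrictScalars ℂ) Θ
    fun f hf => hΘ0 f hf
  have hΦ : ∀ f : Pn n, Φ (Ideal.Quotient.mk (dIdeal n) f) = Θ f := fun f => rfl
  refine ⟨Φ, ?_, ?_⟩
  · intro v
    have hv : v ∈ H.G δ K := by
      rw [hK]
      exact Submodule.mem_top
    obtain ⟨f, hf⟩ := hsur K le_rfl hv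
    exact ⟨Ideal.Quotient.mk (dIdeal n) f, by rw [hΦ, hf]⟩
  · intro g d
    obtain ⟨f, rfl⟩ := Ideal.Quotient.mk_surjective d
    have h1 : rq g (Ideal.Quotient.mk (dIdeal n) f) = Ideal.Quotient.mk (dIdeal n) (rn g f) := rfl
    rw [h1, hΦ, hΦ, hΘs]

end

end Pool.Agent.Helper13.HM
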